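import Mathlib
import Pool.Agent.P.MP_e09f5c_gt.SingLow
import Pool.Agent.P.MP_e09f5c_gt.Core

set_option autoImplicit false

namespace Pool.Agent.Results.MP_e09f5c_gt.OneSingularity

section Defs

variable {E : Type} [NormedAddCommGroup E] [InnerProductSpace ℝ E]

/-- Orthogonal projection onto the tangent space of the unit sphere at `x`. -/
noncomputable def tang (x : E) : E →L[ℝ] E :=
  ContinuousLinearMap.id ℝ E - (innerSL ℝ x).smulRight x

/-- Covariant derivative of the field `W` at the point `x` of the sphere. -/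
noncomputable def nabla (W : E → E) (x : E) : E →L[ℝ] E :=
  tang x * fderiv ℝ W x * tang x

/-- The operator `I + Aᵗ A`. -/
noncomputable def gramOp [CompleteSpace E] (A : E →L[ℝ] E) : E →L[ℝ] E :=
  1 + ContinuousLinearMap.adjoint A * A

/-- Sasaki volume of the field `W` on the unit sphere, of dimension `n`. -/
noncomputable def vol [CompleteSpace E] [MeasurableSpace E] [BorelSpace E] (n : ℕ) (W : E → E) :
    ENNReal :=
  ∫⁻ x in Metric.sphere (0 : E) 1,
    ENNReal.ofReal (Real.sqrt (LinearMap.det (gramOp (nabla W x)).toLinearMap))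
    ∂(MeasureTheory.Measure.hausdorffMeasure (n : ℝ))

/-- The parallel transport field. -/
noncomputable def transport (a v : E) : E → E :=
  fun y => v - (inner ℝ v y / (1 + inner ℝ y a)) • (y + a)

/-- `V` is a differentiable unit tangent field on the unit sphere without its point `p`. -/
def UnitOff (p : E) (V : E → E) : Prop :=
  ‖p‖ = 1 ∧ ∀ x : E, ‖x‖ = 1 → x ≠ p → DifferentiableAt ℝ V x ∧ inner ℝ x (V x) = 0 ∧ ‖V x‖ = 1

end Defs

open Pool.Agent.Ped in
/-- On the sphere of dimension `2 m + 1`, `m > 1`, the parallel transport field has the least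
Sasaki volume among all unit tangent fields that are differentiable away from one point,
whatever they do near that point. -/
theorem result :
    ∀ m : ℕ, 1 < m →
    ∀ a v : EuclideanSpace ℝ (Fin (2 * m + 2)), ‖a‖ = 1 → ‖v‖ = 1 → inner ℝ a v = 0 →
      IsLeast
        {t : ENNReal | ∃ (p : EuclideanSpace ℝ (Fin (2 * m + 2)))
          (V : EuclideanSpace ℝ (Fin (2 * m + 2)) → EuclideanSpace ℝ (Fin (2 * m + 2))),
          UnitOff p V ∧ t = vol (2 * m + 1) V}
        (vol (2 * m + 1) (transport a v)) := by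
  intro m hm a v ha hv hav
  have hC : CoreIneq (2 * m) := by
    rcases (by omega : m = 2 ∨ 3 ≤ m) with rfl | h3
    · exact core_of_nf (le_refl 3) nf_three
    · obtain ⟨k, hk⟩ : ∃ k, 2 * m = k + 1 := ⟨2 * m - 1, by omega⟩
      rw [hk]
      exact core_of_nf (by omega) (nf_large (by omega))
  refine ⟨⟨-a, par a v, ⟨by rw [norm_neg, ha], fun x hx hxa => ?_⟩, rfl⟩, ?_⟩
  · have h := good_par ha hv hav hx hxa
    exact ⟨h.2.1, h.self⟩
  · rintro t ⟨p, V, ⟨hp, hV⟩, rfl⟩
    exact lower2 (N := 2 * m) (by omega) hC (a₀ := -p) (by rw [norm_neg, hp])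
      (fun x hx hxp => hV x hx (by rwa [neg_neg] at hxp)) ha hv hav

end Pool.Agent.Results.MP_e09f5c_gt.OneSingularity
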